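import Pool.Agent.K1H80.KA.Stm

/-! Piece DIRECT of project KA (for helper80): leading monomials. -/

set_option autoImplicit false

namespace Pool.Agent.K1H33.KA

open MvPolynomial Pool.Agent.KA

lemma zpow_sum' {L : Type} [Field L] {ι : Type} (s : Finset ι) (f : ι → ℤ) {a : L} (ha : a ≠ 0) :
    a ^ (∑ i ∈ s, f i) = ∏ i ∈ s, a ^ f i := by
  classical
  induction s using Finset.induction_on with
  | empty => simp
  | insert i s hi ih => rw [Finset.sum_insert hi, Finset.prod_insert hi, zpow_add₀ ha, ih]

lemma monom {L : Type} [Field L] {ι : Type} [Fintype ι] {n : ℕ} (y : Fin n → L)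
    (hy : ∀ k, y k ≠ 0) (h : ι → Fin n) (z : ι → ℤ) :
    ∏ k, y k ^ (∑ e, if h e = k then z e else 0) = ∏ e, y (h e) ^ z e := by
  have h1 : ∀ k, y k ^ (∑ e, if h e = k then z e else 0) =
      ∏ e, y k ^ (if h e = k then z e else 0) := fun k => zpow_sum' _ _ (hy k)
  rw [Finset.prod_congr rfl fun k _ => h1 k, Finset.prod_comm]
  refine Finset.prod_congr rfl fun e _ => ?_
  rw [Finset.prod_eq_single (h e)]
  · rw [if_pos rfl]
  · intro k _ hk
    rw [if_neg (Ne.symm hk), zpow_zero]
  · intro hk
    exact absurd (Finset.mem_univ _) hk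

/-- the family of the variables, ordered -/
def fam {L : Type} {n : ℕ} (σ : Equiv.Perm (Fin n)) (x y : Fin n → L) (i : Fin (n + n)) : L :=
  Fin.addCases (motive := fun _ => L) (fun s => y (σ.symm s)) (fun k => x k) i

theorem core {F L : Type} [Field F] [Field L] [Algebra F L] (hV : VALStm) {n : ℕ} {ι : Type}
    [Fintype ι] (a b : ι → Fin n) (hab : ∀ e, a e ≠ b e) (σ : Equiv.Perm (Fin n))
    (hF : Forest (tl σ a b) (hd σ a b)) (x y : Fin n → L)
    (hxy : AlgebraicIndependent F (fam σ x y)) :
    AlgebraicIndependent F (fun e => x (a e) * y (b e) - x (b e) * y (a e)) := by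
  classical
  obtain ⟨V, hFV, hVlt⟩ := hV F L (n + n) _ hxy
  obtain ⟨g, hg⟩ : ∃ g : Fin (n + n) → L, g = fam σ x y := ⟨_, rfl⟩
  rw [← hg] at hxy hVlt
  have hgl : ∀ s, g (Fin.castAdd n s) = y (σ.symm s) := by
    intro s
    rw [hg]
    unfold fam
    rw [Fin.addCases_left]
  have hgr : ∀ k, g (Fin.natAdd n k) = x k := by
    intro k
    rw [hg]
    unfold fam
    rw [Fin.addCases_right]
  have hg0 : ∀ i, g i ≠ 0 := fun i => hxy.ne_zero i
  have hx0 : ∀ k, x k ≠ 0 := fun k => by
    rw [← hgr]
    exact hg0 _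
  have hy0 : ∀ k, y k ≠ 0 := fun k => by
    have := hg0 (Fin.castAdd n (σ k))
    rwa [hgl, Equiv.symm_apply_apply] at this
  have keyA : ∀ c : Fin (n + n) → ℤ, V.valuation (∏ i, g i ^ c i) = 1 → c = 0 := by
    intro c hc
    by_contra hne
    obtain ⟨i, hi, hmin⟩ : ∃ i, c i ≠ 0 ∧ ∀ j < i, c j = 0 := by
      have hex : ∃ i, c i ≠ 0 := Function.ne_iff.1 hne
      refine ⟨WellFounded.min wellFounded_lt {i | c i ≠ 0} hex,
        WellFounded.min_mem wellFounded_lt {i | c i ≠ 0} hex, fun j hj => ?_⟩
      by_contra hj0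
      exact WellFounded.not_lt_min wellFounded_lt {i | c i ≠ 0} hj0 hj
    rcases lt_or_gt_of_ne hi with h | h
    · have h1 := hVlt (fun i => - c i) ⟨i, by simpa using h, fun j hj => by simp [hmin j hj]⟩
      have e1 : ∏ i, g i ^ (-c i) = (∏ i, g i ^ c i)⁻¹ := by
        rw [← Finset.prod_inv_distrib]
        exact Finset.prod_congr rfl fun i _ => zpow_neg _ _
      rw [e1, map_inv₀, hc, inv_one] at h1
      exact lt_irrefl _ h1
    · have h1 := hVlt c ⟨i, h, hmin⟩
      rw [hc] at h1
      exact lt_irrefl _ h1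
  have hvne : ∀ u : L, u ≠ 0 → V.valuation u ≠ 0 := fun u hu => (Valuation.ne_zero_iff _).2 hu
  have keyB : ∀ i j : Fin n, σ i < σ j → V.valuation (x j * y i) < V.valuation (x i * y j) := by
    intro i j hij
    obtain ⟨c, hc⟩ : ∃ c : Fin (n + n) → ℤ, c = Fin.addCases (motive := fun _ => ℤ)
      (fun s => (if s = σ i then 1 else 0) - (if s = σ j then 1 else 0))
      (fun k => (if k = j then 1 else 0) - (if k = i then 1 else 0)) := ⟨_, rfl⟩
    have hcl : ∀ s, c (Fin.castAdd n s) =
        (if s = σ i then 1 else 0) - (if s = σ j then 1 else 0) := by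
      intro s
      rw [hc, Fin.addCases_left]
    have hcr : ∀ k, c (Fin.natAdd n k) = (if k = j then 1 else 0) - (if k = i then 1 else 0) := by
      intro k
      rw [hc, Fin.addCases_right]
    have h1 := hVlt c ⟨Fin.castAdd n (σ i), by rw [hcl, if_pos rfl, if_neg hij.ne]; norm_num, by
      intro t
      refine Fin.addCases (motive := fun t => t < Fin.castAdd n (σ i) → c t = 0) ?_ ?_ t
      · intro s hs
        have hs' : s < σ i := by
          rw [Fin.lt_def] at hs ⊢
          exact hs
        rw [hcl, if_neg hs'.ne, if_neg (hs'.trans hij).ne, sub_zero]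
      · intro k hk
        exfalso
        rw [Fin.lt_def] at hk
        simp only [Fin.val_natAdd, Fin.val_castAdd] at hk
        have := (σ i).2
        omega⟩
    have e1 : ∏ t, g t ^ c t = (x j * y i) / (x i * y j) := by
      rw [Fin.prod_univ_add]
      have e2 : ∏ s, g (Fin.castAdd n s) ^ c (Fin.castAdd n s) = y i / y j := by
        have e3 : ∀ s, g (Fin.castAdd n s) ^ c (Fin.castAdd n s) =
            (if s = σ i then y (σ.symm s) else 1) / (if s = σ j then y (σ.symm s) else 1) := by
          intro s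
          rw [hgl, hcl, zpow_sub₀ (hy0 _)]
          congr 1
          · split_ifs <;> simp
          · split_ifs <;> simp
        rw [Finset.prod_congr rfl fun s _ => e3 s, Finset.prod_div_distrib,
          Finset.prod_ite_eq' Finset.univ (σ i), Finset.prod_ite_eq' Finset.univ (σ j)]
        simp
      have e4 : ∏ k, g (Fin.natAdd n k) ^ c (Fin.natAdd n k) = x j / x i := by
        have e3 : ∀ k, g (Fin.natAdd n k) ^ c (Fin.natAdd n k) =
            (if k = j then x k else 1) / (if k = i then x k else 1) := by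
          intro k
          rw [hgr, hcr, zpow_sub₀ (hx0 _)]
          congr 1
          · split_ifs <;> simp
          · split_ifs <;> simp
        rw [Finset.prod_congr rfl fun s _ => e3 s, Finset.prod_div_distrib,
          Finset.prod_ite_eq' Finset.univ j, Finset.prod_ite_eq' Finset.univ i]
        simp
      rw [e2, e4]
      have := hx0 i
      have := hy0 j
      field_simp
    rw [e1, map_div₀] at h1
    rwa [div_lt_one₀ (zero_lt_iff.2 (hvne _ (mul_ne_zero (hx0 i) (hy0 j))))] at h1
  obtain ⟨f, hf⟩ : ∃ f : ι → L, f = fun e => x (a e) * y (b e) - x (b e) * y (a e) := ⟨_, rfl⟩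
  have hfe : ∀ e, f e = x (a e) * y (b e) - x (b e) * y (a e) := fun e => by rw [hf]
  rw [← hf]
  have keyf : ∀ e, V.valuation (f e) = V.valuation (x (tl σ a b e) * y (hd σ a b e)) := by
    intro e
    rw [hfe]
    unfold tl hd
    by_cases h : σ (a e) < σ (b e)
    · rw [if_pos h, if_pos h]
      exact Valuation.map_sub_eq_of_lt_left _ (keyB _ _ h)
    · have h' : σ (b e) < σ (a e) :=
        lt_of_le_of_ne (not_lt.1 h) fun h' => hab e (σ.injective h'.symm)
      rw [if_neg h, if_neg h]
      exact Valuation.map_sub_eq_of_lt_right _ (keyB _ _ h')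
  have hf0 : ∀ e, f e ≠ 0 := by
    intro e h
    have h1 := keyf e
    rw [h, map_zero] at h1
    exact hvne _ (mul_ne_zero (hx0 _) (hy0 _)) h1.symm
  have keyC : ∀ z : ι → ℤ, V.valuation (∏ e, f e ^ z e) = 1 → z = 0 := by
    intro z hz
    have h1 : V.valuation (∏ e, f e ^ z e) =
        V.valuation (∏ e, (x (tl σ a b e) * y (hd σ a b e)) ^ z e) := by
      rw [map_prod, map_prod]
      refine Finset.prod_congr rfl fun e _ => ?_
      rw [map_zpow₀, map_zpow₀, keyf]
    obtain ⟨c, hc⟩ : ∃ c : Fin (n + n) → ℤ, c = Fin.addCases (motive := fun _ => ℤ)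
      (fun s => ∑ e, if hd σ a b e = σ.symm s then z e else 0)
      (fun k => ∑ e, if tl σ a b e = k then z e else 0) := ⟨_, rfl⟩
    have hcl : ∀ s, c (Fin.castAdd n s) = ∑ e, if hd σ a b e = σ.symm s then z e else 0 := by
      intro s
      rw [hc, Fin.addCases_left]
    have hcr : ∀ k, c (Fin.natAdd n k) = ∑ e, if tl σ a b e = k then z e else 0 := by
      intro k
      rw [hc, Fin.addCases_right]
    have h2 : ∏ i, g i ^ c i = ∏ e, (x (tl σ a b e) * y (hd σ a b e)) ^ z e := by
      rw [Fin.prod_univ_add]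
      have e1 : ∏ s, g (Fin.castAdd n s) ^ c (Fin.castAdd n s) = ∏ e, y (hd σ a b e) ^ z e := by
        have e2 : ∀ s, g (Fin.castAdd n s) ^ c (Fin.castAdd n s) =
            (fun k => y k ^ (∑ e, if hd σ a b e = k then z e else 0)) (σ.symm s) := by
          intro s
          rw [hgl, hcl]
        rw [Finset.prod_congr rfl fun s _ => e2 s,
          Equiv.prod_comp σ.symm (fun k => y k ^ (∑ e, if hd σ a b e = k then z e else 0))]
        exact monom y hy0 _ z
      have e3 : ∏ k, g (Fin.natAdd n k) ^ c (Fin.natAdd n k) = ∏ e, x (tl σ a b e) ^ z e := by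
        have e2 : ∀ k, g (Fin.natAdd n k) ^ c (Fin.natAdd n k) =
            x k ^ (∑ e, if tl σ a b e = k then z e else 0) := by
          intro k
          rw [hgr, hcr]
        rw [Finset.prod_congr rfl fun s _ => e2 s]
        exact monom x hx0 _ z
      rw [e1, e3, ← Finset.prod_mul_distrib]
      refine Finset.prod_congr rfl fun e _ => ?_
      rw [mul_zpow, mul_comm]
    have h3 := keyA c (by rw [h2, ← h1]; exact hz)
    apply hF z
    · intro k
      have := congr_fun h3 (Fin.natAdd n k)
      rw [hcr] at this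
      exact this
    · intro k
      have := congr_fun h3 (Fin.castAdd n (σ k))
      rw [hcl, Equiv.symm_apply_apply] at this
      exact this
  rw [algebraicIndependent_iff]
  intro P hP
  by_contra hne
  have hsupp : P.support.Nonempty := MvPolynomial.support_nonempty.2 hne
  obtain ⟨T, hT⟩ : ∃ T : (ι →₀ ℕ) → L,
    T = fun m => algebraMap F L (P.coeff m) * ∏ e, f e ^ m e := ⟨_, rfl⟩
  have hTm : ∀ m, T m = algebraMap F L (P.coeff m) * ∏ e, f e ^ m e := fun m => by rw [hT]
  have hsum : ∑ m ∈ P.support, T m = 0 := by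
    rw [← hP, MvPolynomial.aeval_def, MvPolynomial.eval₂_eq']
    exact Finset.sum_congr rfl fun m _ => hTm m
  obtain ⟨m0, hm0, hmax⟩ := Finset.exists_max_image P.support (fun m => V.valuation (T m)) hsupp
  have hc1 : ∀ m ∈ P.support, V.valuation (algebraMap F L (P.coeff m)) = 1 := by
    intro m hm
    have hne0 : P.coeff m ≠ 0 := MvPolynomial.mem_support_iff.1 hm
    have h1 : V.valuation (algebraMap F L (P.coeff m)) ≤ 1 :=
      (V.valuation_le_one_iff _).2 (hFV _)
    have h2 : V.valuation (algebraMap F L (P.coeff m)⁻¹) ≤ 1 :=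
      (V.valuation_le_one_iff _).2 (hFV _)
    rw [map_inv₀, map_inv₀] at h2
    have hne1 : V.valuation (algebraMap F L (P.coeff m)) ≠ 0 :=
      hvne _ (by rwa [Ne, map_eq_zero])
    apply le_antisymm h1
    exact (inv_le_one₀ (zero_lt_iff.2 hne1)).1 h2
  have hvT : ∀ m ∈ P.support, V.valuation (T m) = V.valuation (∏ e, f e ^ m e) := by
    intro m hm
    rw [hTm, map_mul, hc1 m hm, one_mul]
  have hprod : ∀ m : ι →₀ ℕ, ∏ e, f e ^ m e ≠ 0 := fun m =>
    Finset.prod_ne_zero_iff.2 fun e _ => pow_ne_zero _ (hf0 e)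
  have hlt : ∀ m ∈ P.support.erase m0, V.valuation (T m) < V.valuation (T m0) := by
    intro m hm
    rw [Finset.mem_erase] at hm
    refine lt_of_le_of_ne (hmax m hm.2) fun heq => hm.1 ?_
    rw [hvT m hm.2, hvT m0 hm0] at heq
    have h1 : V.valuation (∏ e, f e ^ ((m e : ℤ) - (m0 e : ℤ))) = 1 := by
      have e1 : ∏ e, f e ^ ((m e : ℤ) - (m0 e : ℤ)) = (∏ e, f e ^ m e) / ∏ e, f e ^ m0 e := by
        rw [← Finset.prod_div_distrib]
        refine Finset.prod_congr rfl fun e _ => ?_
        rw [zpow_sub₀ (hf0 e), zpow_natCast, zpow_natCast]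
      rw [e1, map_div₀, heq]
      exact div_self (hvne _ (hprod m0))
    have h2 := keyC _ h1
    ext e
    have h3 := congr_fun h2 e
    simp only [Pi.zero_apply] at h3
    omega
  have hT0 : V.valuation (T m0) ≠ 0 := by
    rw [hvT m0 hm0]
    exact hvne _ (hprod m0)
  have hs1 : V.valuation (∑ m ∈ P.support.erase m0, T m) < V.valuation (T m0) :=
    Valuation.map_sum_lt _ hT0 hlt
  have hs2 : T m0 = -∑ m ∈ P.support.erase m0, T m := by
    have := Finset.add_sum_erase P.support T hm0
    rw [hsum] at this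
    exact eq_neg_of_add_eq_zero_left this
  have hs3 : V.valuation (T m0) = V.valuation (∑ m ∈ P.support.erase m0, T m) := by
    conv_lhs => rw [hs2]
    exact Valuation.map_neg _ _
  rw [← hs3] at hs1
  exact lt_irrefl _ hs1

theorem direct (hV : VALStm) : DIRECTStm := by
  intro F _ n ι _ a b hab σ hF
  have hφ : Function.Injective (IsScalarTower.toAlgHom F (MvPolynomial (Fin n × Fin 2) F) (LL F n)) :=
    IsFractionRing.injective (MvPolynomial (Fin n × Fin 2) F) (LL F n)
  have h0 : AlgebraicIndependent F (X : Fin n × Fin 2 → MvPolynomial (Fin n × Fin 2) F) :=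
    MvPolynomial.algebraicIndependent_X _ _
  have h1 := h0.map' hφ
  have hinj : Function.Injective (fam σ (fun k : Fin n => ((k, 0) : Fin n × Fin 2))
      (fun k => (k, 1))) := by
    intro s t
    refine Fin.addCases (motive := fun s => fam σ (fun k : Fin n => ((k, 0) : Fin n × Fin 2))
      (fun k => (k, 1)) s = fam σ (fun k : Fin n => ((k, 0) : Fin n × Fin 2))
      (fun k => (k, 1)) t → s = t) ?_ ?_ s
    · intro s'
      refine Fin.addCases (motive := fun t => fam σ (fun k : Fin n => ((k, 0) : Fin n × Fin 2))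
        (fun k => (k, 1)) (Fin.castAdd n s') = fam σ (fun k : Fin n => ((k, 0) : Fin n × Fin 2))
        (fun k => (k, 1)) t → Fin.castAdd n s' = t) ?_ ?_ t
      · intro t' h
        simp only [fam, Fin.addCases_left, Prod.mk.injEq, and_true] at h
        rw [σ.symm.injective h]
      · intro t' h
        simp only [fam, Fin.addCases_left, Fin.addCases_right, Prod.mk.injEq] at h
        exact absurd h.2 (by decide)
    · intro s'
      refine Fin.addCases (motive := fun t => fam σ (fun k : Fin n => ((k, 0) : Fin n × Fin 2))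
        (fun k => (k, 1)) (Fin.natAdd n s') = fam σ (fun k : Fin n => ((k, 0) : Fin n × Fin 2))
        (fun k => (k, 1)) t → Fin.natAdd n s' = t) ?_ ?_ t
      · intro t' h
        simp only [fam, Fin.addCases_left, Fin.addCases_right, Prod.mk.injEq] at h
        exact absurd h.2 (by decide)
      · intro t' h
        simp only [fam, Fin.addCases_right, Prod.mk.injEq, and_true] at h
        rw [h]
  have h2 := h1.comp _ hinj
  have e1 : (IsScalarTower.toAlgHom F (MvPolynomial (Fin n × Fin 2) F) (LL F n) ∘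
      (X : Fin n × Fin 2 → MvPolynomial (Fin n × Fin 2) F)) ∘
      (fam σ (fun k : Fin n => ((k, 0) : Fin n × Fin 2)) (fun k => (k, 1))) =
      fam σ (fun k => IsScalarTower.toAlgHom F (MvPolynomial (Fin n × Fin 2) F) (LL F n) (X (k, 0)))
        (fun k => IsScalarTower.toAlgHom F (MvPolynomial (Fin n × Fin 2) F) (LL F n)
          (X (k, 1))) := by
    funext s
    refine Fin.addCases (motive := fun s => ((IsScalarTower.toAlgHom F
      (MvPolynomial (Fin n × Fin 2) F) (LL F n) ∘
      (X : Fin n × Fin 2 → MvPolynomial (Fin n × Fin 2) F)) ∘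
      (fam σ (fun k : Fin n => ((k, 0) : Fin n × Fin 2)) (fun k => (k, 1)))) s =
      fam σ (fun k => IsScalarTower.toAlgHom F (MvPolynomial (Fin n × Fin 2) F) (LL F n) (X (k, 0)))
        (fun k => IsScalarTower.toAlgHom F (MvPolynomial (Fin n × Fin 2) F) (LL F n)
          (X (k, 1))) s) ?_ ?_ s
    · intro s'
      simp only [Function.comp_apply, fam, Fin.addCases_left]
    · intro s'
      simp only [Function.comp_apply, fam, Fin.addCases_right]
  rw [e1] at h2
  have h3 := core hV a b hab σ hF _ _ h2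
  refine AlgebraicIndependent.of_comp
    (IsScalarTower.toAlgHom F (MvPolynomial (Fin n × Fin 2) F) (LL F n)) ?_
  have e2 : (IsScalarTower.toAlgHom F (MvPolynomial (Fin n × Fin 2) F) (LL F n) ∘
      fun e => fm F n (a e, b e)) = fun e =>
      IsScalarTower.toAlgHom F (MvPolynomial (Fin n × Fin 2) F) (LL F n) (X (a e, 0)) *
      IsScalarTower.toAlgHom F (MvPolynomial (Fin n × Fin 2) F) (LL F n) (X (b e, 1)) -
      IsScalarTower.toAlgHom F (MvPolynomial (Fin n × Fin 2) F) (LL F n) (X (b e, 0)) *
      IsScalarTower.toAlgHom F (MvPolynomial (Fin n × Fin 2) F) (LL F n) (X (a e, 1)) := by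
    funext e
    simp only [Function.comp_apply, fm, map_sub, map_mul]
  rw [e2]
  exact h3

end Pool.Agent.K1H33.KA
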