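import Pool.Agent.K1H80.KA.StmB
import Pool.Agent.Helper834.EC.Dim1

/-! Piece KD of project KA (for helper80): Krull dimension and transcendence degree. -/

set_option autoImplicit false

namespace Pool.Agent.K1H33.KA

open Pool.Agent.KA

theorem kd : KDStm := by
  intro F A _ _ _ _ ι _ f S hS hmax
  obtain ⟨f', hf'⟩ : ∃ f' : ι → Algebra.adjoin F (Set.range f), ∀ i, (f' i : A) = f i :=
    ⟨fun i => ⟨f i, Algebra.subset_adjoin (Set.mem_range_self i)⟩, fun _ => rfl⟩
  have hval : Function.Injective (Algebra.adjoin F (Set.range f)).val := Subtype.val_injective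
  have hind : AlgebraicIndepOn F f' S := by
    refine AlgebraicIndependent.of_comp (Algebra.adjoin F (Set.range f)).val ?_
    have e : ((Algebra.adjoin F (Set.range f)).val ∘ fun i : S => f' i) = fun i : S => f i := by
      funext i
      exact hf' i
    rw [e]
    exact hS
  have halg : ∀ i, IsAlgebraic (Algebra.adjoin F (f' '' S)) (f' i) := by
    intro i
    by_cases hi : i ∈ S
    · exact isAlgebraic_algebraMap
        (⟨f' i, Algebra.subset_adjoin (Set.mem_image_of_mem f' hi)⟩ :
          Algebra.adjoin F (f' '' S))
    · by_contra hcon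
      apply hmax i hi
      have h1 : AlgebraicIndepOn F f' (insert i S) := hind.insert hcon
      have h2 := AlgebraicIndependent.map' h1 hval
      have e : ((Algebra.adjoin F (Set.range f)).val ∘ fun j : (insert i S : Set ι) => f' j) =
          fun j : (insert i S : Set ι) => f j := by
        funext j
        exact hf' j
      rw [e] at h2
      exact h2
  have hall : ∀ (x : A) (hx : x ∈ Algebra.adjoin F (Set.range f)),
      IsAlgebraic (Algebra.adjoin F (f' '' S)) (⟨x, hx⟩ : Algebra.adjoin F (Set.range f)) := by
    intro x hx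
    induction hx using Algebra.adjoin_induction with
    | mem x hx =>
      obtain ⟨i, rfl⟩ := hx
      have e : (⟨f i, Algebra.subset_adjoin (Set.mem_range_self i)⟩ :
          Algebra.adjoin F (Set.range f)) = f' i := Subtype.ext (hf' i).symm
      rw [e]
      exact halg i
    | algebraMap r =>
      exact isAlgebraic_algebraMap (algebraMap F (Algebra.adjoin F (f' '' S)) r)
    | add x y hx hy h1 h2 => exact h1.add h2
    | mul x y hx hy h1 h2 => exact h1.mul h2
  have hb : IsTranscendenceBasis F (fun i : S => f' i) := by
    rw [AlgebraicIndependent.isTranscendenceBasis_iff_isAlgebraic hind]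
    have e : Set.range (fun i : S => f' i) = f' '' S := (Set.image_eq_range f' S).symm
    rw [e]
    exact ⟨fun x => hall x.1 x.2⟩
  haveI : Algebra.FiniteType F (Algebra.adjoin F (Set.range f)) :=
    (Subalgebra.fg_iff_finiteType _).1 ⟨(Set.finite_range f).toFinset, by simp⟩
  obtain ⟨s, hs1, hs2⟩ := Pool.Agent.Helper834.EC.exists_ringKrullDim_eq_trdeg F
    (Algebra.adjoin F (Set.range f))
  have h3 := hb.cardinalMk_eq_trdeg
  rw [hs2] at h3
  have h4 : Nat.card S = s := by
    unfold Nat.card
    rw [h3, Cardinal.toNat_natCast]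
  rw [hs1, h4]

end Pool.Agent.K1H33.KA
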